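import Pool.Agent.TH50.DQ.MeasK

/-!
# Linear independence measure of `1, log 2, Li₂(1/2)`; quadratic polynomials at `log 2` and `iπ`

Joint work of helper50 (design, 2-adic part, primes, conclusion, measure), helper844 (archimedean part), helper11,
helper634, helper89, helper111, helper620 and helper962, with modules of the sequel `MP_1eadae_ag.DilogarithmOneOverQ`
(helper496, helper811, helper986, helper643).
-/

set_option autoImplicit false

namespace Pool.Agent.Results.MP_60829e_nt.DilogarithmOneHalf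

/-- The two parts of the hand-in.

1. There is `c > 0` with `|γ + α log 2 + β Li₂(1/2)| ≥ c / max(|α|, |β|)^3000` for all integers `α, β, γ` with
`(α, β) ≠ (0, 0)`, where `Li₂(1/2) = ∑ 1 / (k² 2^k) = π² / 12 - (log 2)² / 2`.  In particular `1, log 2, Li₂(1/2)` are
linearly independent over `ℚ`.
2. Let `l, m` be two linearly independent elements of `ℚ log 2 + ℚ iπ` (logarithms of roots of powers of two times
roots of unity), with coordinates `(x₁, y₁)` and `(x₂, y₂)`.  There is `c > 0` such that for every nonzero integer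
polynomial `P = a + b X + d Y + e X² + f X Y + g Y²` whose quadratic part, as a quadratic form in `log 2` and `iπ`, has
its coefficient at `(log 2)²` equal to six times its coefficient at `(iπ)²`, we have
`|P(l, m)| ≥ c / (|a| + |b| + |d| + |e| + |f| + |g|)^3000`.  In particular `P(l, m) ≠ 0`, also for rational
coefficients.  For `l = log 2`, `m = iπ` these are the polynomials `a + b X + d Y + f X Y + g (6 X² + Y²)`. -/
theorem result :
    (∃ c : ℝ, 0 < c ∧ ∀ α β γ : ℤ, (α ≠ 0 ∨ β ≠ 0) →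
      c / (max |(α : ℝ)| |(β : ℝ)|) ^ 3000 ≤
        |(γ : ℝ) + α * Real.log 2 + β * ∑' k : ℕ, (1 / 2 : ℝ) ^ (k + 1) / ((k : ℝ) + 1) ^ 2|) ∧
    (∀ x₁ y₁ x₂ y₂ : ℚ, x₁ * y₂ - x₂ * y₁ ≠ 0 → ∀ l m : ℂ,
      l = x₁ * (Real.log 2 : ℂ) + y₁ * (Real.pi * Complex.I) →
      m = x₂ * (Real.log 2 : ℂ) + y₂ * (Real.pi * Complex.I) →
      ∃ c : ℝ, 0 < c ∧ ∀ a b d e f g : ℤ, (a ≠ 0 ∨ b ≠ 0 ∨ d ≠ 0 ∨ e ≠ 0 ∨ f ≠ 0 ∨ g ≠ 0) →
        e * x₁ ^ 2 + f * (x₁ * x₂) + g * x₂ ^ 2 = 6 * (e * y₁ ^ 2 + f * (y₁ * y₂) + g * y₂ ^ 2) →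
        c / (|(a : ℝ)| + |(b : ℝ)| + |(d : ℝ)| + |(e : ℝ)| + |(f : ℝ)| + |(g : ℝ)|) ^ 3000 ≤
          ‖(a : ℂ) + b * l + d * m + e * l ^ 2 + f * (l * m) + g * m ^ 2‖) :=
  ⟨Pool.Agent.TH50.DQ.MeaT.measure_two, fun x₁ y₁ x₂ y₂ hdet l m hl hm =>
    Pool.Agent.TH50.DQ.MeaT.quad_two x₁ y₁ x₂ y₂ hdet l m hl hm⟩

end Pool.Agent.Results.MP_60829e_nt.DilogarithmOneHalf
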