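import Pool.Agent.TH519.GL.U6

/-!
# All other combinations of logarithms have large degree over a generic combination

Let `λ_1, ..., λ_N` be logarithms of algebraic numbers which are linearly independent over `ℚ`, let
`t` be any complex number (for example one more logarithm) and `c = ⌊(N + 1) ^ 2 / 4⌋`. Outside a
hypersurface of vectors `b` of algebraic numbers (in particular of integers) the number
`x = b_1 λ_1 + ... + b_N λ_N` has the following property: every linear combination `y` of
`1, t, λ_1, ..., λ_N` with algebraic coefficients is a combination of `1` and `x`, or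
`1, y, ..., y ^ (c - 1)` are linearly independent over the field `ℚ̄(x)`. Thus `x` and `y` satisfy no
nonzero polynomial relation of degree `< c` in `y` and of arbitrary degree in `x`.

The proof. If this fails, there is an ultrapower of the algebraic numbers with a family of
exceptional pairs `(x, y)`, `x = ∑ b_j λ_j`, `y = ∑ a_j λ_j + ε t`, such that `b` is generic over
the algebraic numbers (`U4`). The partial derivatives with respect to the `b_k` extend to
derivations of the ultrapower of `ℂ` which vanish on `ℂ` (`U1`, `U2`). If all `λ_j` are algebraic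
over the field generated by one of them, then by `Logs` the field generated by `x` and `y` does not
contain `λ_1`. An automorphism `σ` over this field with `σ λ_1 ≠ λ_1` yields, after differentiating
the relation between `x` and `y`, that `dy/dx` is an eigenvalue of the matrix of the partial
derivatives of the `a_j` with eigenvector `(σ λ_j - λ_j)_j`. Otherwise one differentiates the
relations `∑ a_j D(λ_j) + ε D(t) = (dy/dx) ∑ b_j D(λ_j)` for two derivations `D` of `ℂ` and finds
again that `dy/dx` is an eigenvalue of this matrix (`U3`). Hence `dy/dx` is algebraic and `y` is a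
combination of `1` and `x` (`U5`).
-/

set_option autoImplicit false

namespace Pool.Agent.Results.MP_60829e_nt.EveryOtherCombination

/-- **Main result.** -/
theorem result (N : ℕ) (l : Fin N → ℂ) (halg : ∀ j, IsAlgebraic ℚ (Complex.exp (l j)))
    (hli : LinearIndependent ℚ l) (t : ℂ) :
    ∃ Δ : MvPolynomial (Fin N) (algebraicClosure ℚ ℂ), Δ ≠ 0 ∧
      ∀ b : Fin N → algebraicClosure ℚ ℂ, MvPolynomial.eval b Δ ≠ 0 →
        ∀ y ∈ Submodule.span (algebraicClosure ℚ ℂ) ({1, t} ∪ Set.range l),
          y ∉ Submodule.span (algebraicClosure ℚ ℂ) {1, ∑ j, (b j : ℂ) * l j} →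
            ∀ p : Fin ((N + 1) ^ 2 / 4) → Polynomial (algebraicClosure ℚ ℂ),
              ∑ i, Polynomial.aeval (∑ j, (b j : ℂ) * l j) (p i) * y ^ (i : ℕ) = 0 →
                p = 0 := by
  obtain ⟨Δ, h1, h2⟩ := Pool.Agent.TH519.GL.every_other_span l halg hli t
  refine ⟨Δ, h1, fun b hb y hy hyx p hp => ?_⟩
  exact Pool.Agent.TH519.GL.indep_of_degLe y (Pool.Agent.TH519.GL.cmb l b) _
    (h2 b hb y hy hyx) p hp

end Pool.Agent.Results.MP_60829e_nt.EveryOtherCombination
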