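import Mathlib
import Pool.Agent.TH812.SF.Inst

/-!
# Almost no tuple of independent logarithms satisfies a relation with mixed squarefree monomials

Let `𝓛(γ)` be the space of all linear combinations, with algebraic coefficients, of `1`, of `g` given
complex numbers and of arbitrary logarithms of algebraic numbers.  Let `λ_1, ..., λ_n` be any
logarithms of algebraic numbers which are linearly independent over `ℚ`.  For all but
`K n ^ (k - 1 / D)` of the `n ^ k` tuples `s`, every polynomial `P` with algebraic coefficients,
whose mixed monomials are squarefree and whose pure monomials have degree at most `D`, and which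
takes at `(λ_(s 1), ..., λ_(s k))` a value in `𝓛(γ)`, has no mixed monomials.  More generally the
coefficients of `P` may be taken from any space `U ∋ 1` of dimension at most `N` over the algebraic
numbers; then the exponent is `k - 1 / ((D - 1) N + 1)`.  The constant depends on `k, D, N, g` only.

The proof combines the hyperplane case of the linear subgroup theorem of Waldschmidt and Roy
(proved in the starting files `Pool.Agent.W254.HP`), Baker's theorem (`Pool.Agent.H297R2`), an
induction on the length of the tuple (`Good`, `Dens`) and a removal of the pure powers along blocks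
of tuples with a common entry (`Block`, `Count`).
-/

set_option autoImplicit false

namespace Pool.Agent.Results.MP_60829e_nt.OnlyDiagonalRelations

/-- The space of all linear combinations with algebraic coefficients of `1`, of the numbers `γ j` and
of logarithms of algebraic numbers. -/
noncomputable def LinForms {g : ℕ} (γ : Fin g → ℂ) : Submodule (algebraicClosure ℚ ℂ) ℂ :=
  Submodule.span (algebraicClosure ℚ ℂ)
    ({1} ∪ {z : ℂ | IsAlgebraic ℚ (Complex.exp z)} ∪ Set.range γ)

/-- There is a polynomial `P` with coefficients in `U`, all of whose monomials are squarefree or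
pure powers of a variable of degree at most `D`, in which at least one monomial with two or more
variables occurs, and which takes at `y` a value in `LinForms γ`. -/
def HasMixedRelation (D : ℕ) {k g : ℕ} (U : Submodule (algebraicClosure ℚ ℂ) ℂ) (γ : Fin g → ℂ)
    (y : Fin k → ℂ) : Prop :=
  ∃ P : MvPolynomial (Fin k) ℂ, (∀ m, P.coeff m ∈ U) ∧
    (∀ m ∈ P.support, (∀ i, m i ≤ 1) ∨ ∃ i b, b ≤ D ∧ m = Finsupp.single i b) ∧
    MvPolynomial.eval y P ∈ LinForms γ ∧ ∃ m ∈ P.support, 2 ≤ m.support.card

open Classical in
/-- **Main result.** -/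
theorem result (k D N g : ℕ) (hD : 1 ≤ D) :
    ∃ K : ℝ, ∀ (n : ℕ) (l : Fin n → ℂ), (∀ i, IsAlgebraic ℚ (Complex.exp (l i))) →
      LinearIndependent ℚ l →
      ∀ (γ : Fin g → ℂ) (U : Submodule (algebraicClosure ℚ ℂ) ℂ),
        FiniteDimensional (algebraicClosure ℚ ℂ) U →
        Module.finrank (algebraicClosure ℚ ℂ) U ≤ N → (1 : ℂ) ∈ U →
        ((Finset.univ.filter fun s : Fin k → Fin n =>
          HasMixedRelation D U γ fun i => l (s i)).card : ℝ) ≤
        K * (n : ℝ) ^ ((k : ℝ) - 1 / (((D - 1) * N + 1 : ℕ) : ℝ)) := by
  obtain ⟨K, hK⟩ := Pool.Agent.TH812.SF.main k D N g hD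
  refine ⟨K, fun n l halg hli γ U hUf hUN hU1 => ?_⟩
  refine le_trans ?_ (hK n l halg hli γ U hUf hUN hU1)
  apply Nat.cast_le.mpr
  apply Finset.card_le_card
  intro s hs
  rw [Finset.mem_filter] at hs ⊢
  obtain ⟨hs1, P, h1, h2, h3, h4⟩ := hs
  have h5 : LinForms γ = (Pool.Agent.H301R2.SSE.Lt ⊔
      Submodule.span Pool.Agent.H301R2.SSE.QB (Set.range γ) :
      Submodule Pool.Agent.H301R2.SSE.QB ℂ) := by
    rw [LinForms, Pool.Agent.H301R2.SSE.Lt, Submodule.span_union]
  rw [h5] at h3
  exact ⟨hs1, P, h1, h2, h3, h4⟩

end Pool.Agent.Results.MP_60829e_nt.OnlyDiagonalRelations
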