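import Pool.Agent.TH519.HS.Qg3

/-!
# Almost all quadratic relations between linear forms in logarithms are trivial

If the logarithms of algebraic numbers which are linearly independent over `ℚ` are algebraically
independent, then a quadratic form `Q` over the field `ℚ̄` of the algebraic numbers vanishes at a
tuple `y` of linear forms in logarithms only if `y` lies in a subspace which is defined over `ℚ̄`
and on which `Q` vanishes identically (a totally isotropic subspace). If `Q` is a form of rank `R` in
`m` variables, then such subspaces have dimension at most `m - R + ⌊R / 2⌋`, and for suitable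
subspaces over `ℚ̄` this is attained. We prove that the zeros of `Q` outside of the totally
isotropic subspaces are rare. Let `r` be any integer with `2 r ≥ 2 m - R - 4`, for example
`r = m - R + ⌊(R - 3) / 2⌋` if `R ≥ 3`.

* Dimension. Let `W` be a space of finite dimension `N` over `ℚ̄` which consists of linear forms in
  `1` and logarithms of algebraic numbers, for example the span of `1` and the logarithms of
  `N - 1` primes. The zeros of `Q` in `W ^ m` which are not in a totally isotropic subspace lie in an
  algebraic subset of dimension at most `r N + m (m - 1) + m (m - 3)`. (A set lies in an algebraic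
  subset of dimension at most `d` if and only if any `d + 1` linear forms satisfy a nontrivial
  polynomial relation on it.) The zeros in a fixed totally isotropic subspace of maximal dimension
  form a space of dimension `(m - R + ⌊R / 2⌋) N`, which is larger by `N` or `2 N` up to a constant.
  As `1` is allowed in `W`, the result applies to inhomogeneous quadratic relations, too.
* Counting. Let `l_1, ..., l_N` be logarithms of algebraic numbers which are linearly independent
  over `ℚ`. At most `κ H ^ (r N + m (m - 1) + m (m - 3))` of the integer `m × N` matrices `A` with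
  entries of absolute value at most `H` are such that `Q` vanishes at the tuple
  `y_i = ∑ A_ik l_k` of logarithms, but `y` is not in a totally isotropic subspace defined over `ℚ`.

For nondegenerate forms in `3` or `4` variables (for example `X Z - Y ^ 2` or `X T - Y Z`) one can
take `r = 0`, and the bounds do not depend on `N`.

The proof: consider a zero `y` of `Q` over an ultrapower of `ℚ̄` (coordinates with respect to a basis
of `W`), and let `U` be the smallest subspace over the field `K` of coefficients which contains `y`.
If `Q` does not vanish on `U`, then its restriction to `U` has rank at least `3`, because a quadratic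
form of rank `1` or `2` over an algebraically closed field is a product of linear forms, and the
coordinates of `y` with respect to a basis of `U` are linearly independent (`HS.Qf`). It follows that
the radical of the restriction has dimension at most `r` (`HS.Qg`). The derivations of the ultrapower
of `ℂ` which vanish on `ℂ` (`FE.Ops`) and on the coefficients of `m - 3` linear equations of `U` map
`y` to tangent vectors in `U` orthogonal to `y`, and the hyperplane case of the linear subgroup
theorem of Waldschmidt and Roy (`W254.HP`) allows for at most `m (m - 1) + r N` independent ones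
(`HS.Qg2`). The second part follows by a linear Noether normalisation with bounded fibres
(`HS.Cnt`).
-/

set_option autoImplicit false

namespace Pool.Agent.Results.MP_60829e_nt.QuadraticRelations

/-- The space of all linear combinations, with algebraic coefficients, of `1` and of logarithms of
algebraic numbers. -/
noncomputable def LogForms : Submodule (algebraicClosure ℚ ℂ) ℂ :=
  Submodule.span (algebraicClosure ℚ ℂ) ({1} ∪ {z : ℂ | IsAlgebraic ℚ (Complex.exp z)})

/-- The bilinear form `∑ i, ∑ j, S i j * y i * z j`. -/
noncomputable def form {m : ℕ} (S : Matrix (Fin m) (Fin m) (algebraicClosure ℚ ℂ))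
    (y z : Fin m → ℂ) : ℂ :=
  ∑ i, ∑ j, (S i j : ℂ) * y i * z j

/-- The tuple `y` is a linear combination, with complex coefficients `c a`, of vectors `u a` with
coordinates in the field `K` on which the form `S` vanishes identically: `y` lies in a totally
isotropic subspace defined over `K`. -/
def InIsotropicSubspace (K : Type) [Field K] [Algebra K ℂ] {m : ℕ}
    (S : Matrix (Fin m) (Fin m) (algebraicClosure ℚ ℂ)) (y : Fin m → ℂ) : Prop :=
  ∃ (s : ℕ) (u : Fin s → Fin m → K) (c : Fin s → ℂ),
    (∀ a b, form S (fun i => algebraMap K ℂ (u a i)) (fun i => algebraMap K ℂ (u b i)) = 0) ∧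
    ∀ i, y i = ∑ a, c a * algebraMap K ℂ (u a i)

/-- **Main result.** -/
theorem result (m r : ℕ) (S : Matrix (Fin m) (Fin m) (algebraicClosure ℚ ℂ)) (hS : S.IsSymm)
    (hr : 2 * m ≤ 2 * r + S.rank + 4) :
    (∀ (W : Submodule (algebraicClosure ℚ ℂ) ℂ) [FiniteDimensional (algebraicClosure ℚ ℂ) W],
      W ≤ LogForms →
      ∀ φ : Fin (r * Module.finrank (algebraicClosure ℚ ℂ) W + m * (m - 1) + m * (m - 3) + 1) →
        ((Fin m → W) →ₗ[algebraicClosure ℚ ℂ] algebraicClosure ℚ ℂ),
      ∃ P : MvPolynomial (Fin (r * Module.finrank (algebraicClosure ℚ ℂ) W + m * (m - 1) +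
          m * (m - 3) + 1)) (algebraicClosure ℚ ℂ), P ≠ 0 ∧
        ∀ y : Fin m → W, form S (fun i => (y i : ℂ)) (fun i => (y i : ℂ)) = 0 →
          ¬ InIsotropicSubspace (algebraicClosure ℚ ℂ) S (fun i => (y i : ℂ)) →
          MvPolynomial.eval (fun k => φ k y) P = 0) ∧
    ∀ (N : ℕ) (l : Fin N → ℂ), (∀ k, IsAlgebraic ℚ (Complex.exp (l k))) →
      LinearIndependent ℚ l →
      ∃ κ : ℕ, ∀ H : ℕ, 1 ≤ H →
        Set.ncard {A : Fin m → Fin N → ℤ | (∀ i k, |A i k| ≤ H) ∧
          form S (fun i => ∑ k, (A i k : ℂ) * l k) (fun i => ∑ k, (A i k : ℂ) * l k) = 0 ∧
          ¬ InIsotropicSubspace ℚ S (fun i => ∑ k, (A i k : ℂ) * l k)} ≤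
        κ * H ^ (r * N + m * (m - 1) + m * (m - 3)) :=
  ⟨fun W _ hW φ => Pool.Agent.TH519.HS.quad_dim W hW S hS hr φ,
    fun _ l halg hli => Pool.Agent.TH519.HS.quad_count S hS hr l halg hli⟩

end Pool.Agent.Results.MP_60829e_nt.QuadraticRelations
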